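import Pool.Agent.Lib.MP_12428a_co.Main

set_option autoImplicit false

open Pool.Agent.Lib.MP_12428a_co

/-- If a graph has an orientation carrying a unit vector flow `φ` in Euclidean `d`-space (an
`S²`-flow when `d = 3`) whose balanced vectors span a space of rank at most 2, then the graph
admits a 4-flow (on each of its orientations). -/
theorem Pool.Agent.Results.MP_12428a_co.RankTwoFourFlow.result :
    ∀ (V E : Type) [Fintype V] [Fintype E] (G : MGraph V E) (d : ℕ),
      (∃ (O : G.Orientation) (φ : E → EuclideanSpace ℝ (Fin d)), O.IsUnitVectorFlow φ ∧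
        Module.finrank ℚ (O.balancedSpan φ) ≤ 2) →
      ∀ O' : G.Orientation, ∃ f : E → ℤ, O'.IsFourFlow f :=
  fun _ _ _ _ _ _ ⟨O, φ, hφ, hrank⟩ O' => O.main φ hφ hrank O'
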